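import Pool.Agent.helper67.DL.SpecG

namespace Pool.Agent.DL

open Matrix Complex
open scoped ComplexOrder Manifold ContDiff Topology

noncomputable section

lemma HS_mdz_congr {m n : ℕ} {F G : ℂ → Matrix (Fin m) (Fin n) ℂ} {z : ℂ} (h : F =ᶠ[𝓝 z] G) :
    mdz F =ᶠ[𝓝 z] mdz G := by
  filter_upwards [eventually_eventually_nhds.2 h] with w hw
  ext a b
  have h2 : (fun v => F v a b) =ᶠ[𝓝 w] fun v => G v a b := by
    filter_upwards [hw] with v hv
    rw [hv]
  simp only [mdz, dz, Matrix.of_apply, h2.fderiv_eq]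

lemma HS_mdzb_congr {m n : ℕ} {F G : ℂ → Matrix (Fin m) (Fin n) ℂ} {z : ℂ} (h : F =ᶠ[𝓝 z] G) :
    mdzb F z = mdzb G z := by
  ext a b
  have h2 : (fun v => F v a b) =ᶠ[𝓝 z] fun v => G v a b := by
    filter_upwards [h] with v hv
    rw [hv]
  simp only [mdzb, dzb, Matrix.of_apply, h2.fderiv_eq]

lemma HS_congr {n : ℕ} {Ω : Set ℂ} {A A' H H' : ℂ → Matrix (Fin n) (Fin n) ℂ} {W W' : ℂ → ℝ}
    (hΩ : IsOpen Ω) (h : LH n Ω A W H) (hA : ∀ z ∈ Ω, A z = A' z) (hW : ∀ z ∈ Ω, W z = W' z)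
    (hH : ∀ z ∈ Ω, H z = H' z) : LH n Ω A' W' H' := by
  refine ⟨fun z hz => hH z hz ▸ h.pos z hz, fun a b => ?_, fun z hz => ?_⟩
  · refine (h.smooth a b).congr fun z hz => ?_
    rw [hH z hz]
  · have h1 : H =ᶠ[𝓝 z] H' := by
      filter_upwards [hΩ.mem_nhds hz] with w hw
      exact hH w hw
    have h2 : (fun w => (H w)⁻¹ * mdz H w) =ᶠ[𝓝 z] fun w => (H' w)⁻¹ * mdz H' w := by
      filter_upwards [h1, HS_mdz_congr h1] with w hw hw'
      rw [hw, hw']
    rw [← HS_mdzb_congr h2, h.eq z hz, hA z hz, hW z hz, hH z hz]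

lemma HS_local {n : ℕ} {Ω : Set ℂ} {A H : ℂ → Matrix (Fin n) (Fin n) ℂ} {W : ℂ → ℝ}
    (h : ∀ z ∈ Ω, ∃ Ω₁, IsOpen Ω₁ ∧ z ∈ Ω₁ ∧ LH n Ω₁ A W H) : LH n Ω A W H := by
  refine ⟨fun z hz => ?_, fun a b z hz => ?_, fun z hz => ?_⟩
  · obtain ⟨Ω₁, -, hz1, h1⟩ := h z hz
    exact h1.pos z hz1
  · obtain ⟨Ω₁, ho, hz1, h1⟩ := h z hz
    exact ((h1.smooth a b).contDiffAt (ho.mem_nhds hz1)).contDiffWithinAt
  · obtain ⟨Ω₁, -, hz1, h1⟩ := h z hz
    exact h1.eq z hz1

lemma HS_DD2 : DD * DD = 1 := by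
  rw [DD, diagonal_mul_diagonal]
  ext i j
  fin_cases i <;> fin_cases j <;> simp

lemma HS_DDdet : DD.det = 1 := by
  rw [DD, det_diagonal]
  simp [Fin.prod_univ_three]

lemma HS_DDH : DDᴴ = DD := by
  rw [DD, diagonal_conjTranspose]
  congr 1
  ext i
  fin_cases i <;> simp

lemma HS_DDinv : DD⁻¹ = DD := Matrix.inv_eq_left_inv HS_DD2

theorem HS (hGC : GC_stmt) (hGE : GE_stmt) (hEX : EX_stmt) : HS_stmt := by
  intro X _ _ D hT hD a t ha ht H hH
  obtain ⟨hcov, -, -, -, -, -, -, hrat, hratself, hq0, hq1, hq⟩ := hEX X D hD a t ha ht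
  -- membership
  have hmem : ∀ i, ∀ x ∈ (cov D a).U i, D.τ x ∈ (cov D a).U i := by
    intro i x hx
    cases i
    · exact (hD.tau0 x hx).1
    · exact (hD.tau1 x hx).1
  have hs : ∀ i, ∀ x ∈ (cov D a).U i, quo (sF D a t) ((cov D a).η i) 1 (D.τ x) = -quo (sF D a t) ((cov D a).η i) 1 x := by
    intro i x hx
    cases i
    · have h1 := (hD.tau0 x hx)
      have e1 := (hq0 x hx).1
      have e2 := (hq0 _ h1.1).1
      rw [e1, e2, h1.2]
      simp only [ss]
      ring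
    · have h1 := (hD.tau1 x hx)
      have e1 := (hq1 x hx).1
      have e2 := (hq1 _ h1.1).1
      rw [e1, e2, h1.2]
      ring
  have hqq : ∀ i, ∀ x ∈ (cov D a).U i, quo (qF D a t) ((cov D a).η i) 2 (D.τ x) = quo (qF D a t) ((cov D a).η i) 2 x := by
    intro i x hx
    cases i
    · have h1 := (hD.tau0 x hx)
      have e1 := (hq0 x hx).2
      have e2 := (hq0 _ h1.1).2
      rw [e1, e2, h1.2]
      simp only [qq]
      ring
    · have h1 := (hD.tau1 x hx)
      have e1 := (hq1 x hx).2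
      have e2 := (hq1 _ h1.1).2
      rw [e1, e2, h1.2]
      ring
  have hA : ∀ i, ∀ x ∈ (cov D a).U i,
      -(DD * (hitS (cov D a) (q2F D a t) (q3F D a t)).A i (D.τ x) * DD) =
        (hitS (cov D a) (q2F D a t) (q3F D a t)).A i x := by
    intro i x hx
    have h1 := hq i x hx
    have h2 := hq i _ (hmem i x hx)
    rw [hs i x hx, hqq i x hx] at h2
    have e2 : quo (q2F D a t) ((cov D a).η i) 2 (D.τ x) = quo (q2F D a t) ((cov D a).η i) 2 x := by
      rw [h1.1, h2.1]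
      ring
    have e3 : quo (q3F D a t) ((cov D a).η i) 3 (D.τ x) = -quo (q3F D a t) ((cov D a).η i) 3 x := by
      rw [h1.2, h2.2]
      ring
    simp only [hitS]
    rw [e2, e3]
    ext j k
    fin_cases j <;> fin_cases k <;> simp [DD, Matrix.mul_apply, Fin.sum_univ_three, Matrix.diagonal]
  have hg : ∀ i j, ∀ x ∈ (cov D a).U i ∩ (cov D a).U j, (cov D a).rat i j (D.τ x) = (cov D a).rat i j x := by
    intro i j x hx
    cases i <;> cases j
    · rw [hratself false x hx.1, hratself false _ (hmem false x hx.1)]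
    · have h0 := hD.tau0 x hx.1
      have h1 := hD.tau1 x hx.2
      rw [(hrat x hx).1, (hrat _ ⟨h0.1, h1.1⟩).1, h0.2]
      ring
    · have h0 := hD.tau0 x hx.2
      have h1 := hD.tau1 x hx.1
      rw [(hrat x ⟨hx.2, hx.1⟩).2, (hrat _ ⟨h0.1, h1.1⟩).2, h1.2]
      ring
    · rw [hratself true x hx.1, hratself true _ (hmem true x hx.1)]
  refine ⟨⟨?_, ?_⟩, ?_⟩
  · intro i j x hx
    have h1 := hH.1.glue i j (D.τ x) ⟨hmem i x hx.1, hmem j x hx.2⟩
    have h2 : (hitS (cov D a) (q2F D a t) (q3F D a t)).g i j (D.τ x) =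
        (hitS (cov D a) (q2F D a t) (q3F D a t)).g i j x := by
      simp only [hitS]
      rw [hg i j x hx, hg j i x ⟨hx.2, hx.1⟩]
    rw [h2] at h1
    have hc : (hitS (cov D a) (q2F D a t) (q3F D a t)).g i j x * DD =
        DD * (hitS (cov D a) (q2F D a t) (q3F D a t)).g i j x := by
      simp only [hitS, DD]
      rw [diagonal_mul_diagonal, diagonal_mul_diagonal]
      congr 1
      ext k
      exact mul_comm _ _
    have hc' : DD * ((hitS (cov D a) (q2F D a t) (q3F D a t)).g i j x)ᴴ =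
        ((hitS (cov D a) (q2F D a t) (q3F D a t)).g i j x)ᴴ * DD := by
      have := congrArg Matrix.conjTranspose hc
      rw [conjTranspose_mul, conjTranspose_mul, HS_DDH] at this
      exact this
    simp only [h1]
    rw [Matrix.mul_assoc, Matrix.mul_assoc, Matrix.mul_assoc, hc, ← Matrix.mul_assoc, hc']
    simp only [Matrix.mul_assoc]
  · intro i e he
    apply HS_local
    intro z₀ hz₀
    set e' := chartAt ℂ (D.τ (e.symm z₀)) with he'
    have he'a : e' ∈ atlas ℂ X := chart_mem_atlas ℂ _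
    have hUo : IsOpen ((cov D a).U i) := hcov.1 i
    have hΩo : IsOpen (e.target ∩ e.symm ⁻¹' ((cov D a).U i)) :=
      e.symm.isOpen_inter_preimage hUo
    have hΩo' : IsOpen (e'.target ∩ e'.symm ⁻¹' ((cov D a).U i)) :=
      e'.symm.isOpen_inter_preimage hUo
    have hs1 : IsOpen (e.target ∩ e.symm ⁻¹' (D.τ ⁻¹' e'.source)) :=
      e.symm.isOpen_inter_preimage (e'.open_source.preimage hD.tauc)
    set Ω₁ := (e.target ∩ e.symm ⁻¹' ((cov D a).U i)) ∩ (e.target ∩ e.symm ⁻¹' (D.τ ⁻¹' e'.source)) with hΩ1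
    have hψ : ∀ z ∈ Ω₁, e'.symm (e' (D.τ (e.symm z))) = D.τ (e.symm z) := by
      intro z hz
      exact e'.left_inv hz.2.2
    have hW : ∀ z ∈ Ω₁, ‖(cov D a).η i e (e.symm z)‖ ^ 2 =
        (fun w => ‖(cov D a).η i e' (e'.symm w)‖ ^ 2) (e' (D.τ (e.symm z))) *
          ‖deriv (fun z => e' (D.τ (e.symm z))) z‖ ^ 2 := by
      intro z hz
      have hxs : e.symm z ∈ e.source := e.map_target hz.1.1
      have hez : e (e.symm z) = z := e.right_inv hz.1.1
      simp only [hψ z hz]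
      rw [← mul_pow, ← norm_mul]
      congr 1
      cases i
      · have h1 := hD.taue0 e he e' he'a (e.symm z) hz.1.2 hxs hz.2.2
        rw [hez] at h1
        change ‖(a : ℂ) * D.η0 e (e.symm z)‖ = ‖(a : ℂ) * D.η0 e' (D.τ (e.symm z)) * _‖
        rw [mul_assoc, h1, mul_neg, norm_neg]
      · have h1 := hD.taue1 e he e' he'a (e.symm z) hz.1.2 hxs hz.2.2
        rw [hez] at h1
        change ‖(a : ℂ) * D.η1 e (e.symm z)‖ = ‖(a : ℂ) * D.η1 e' (D.τ (e.symm z)) * _‖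
        rw [mul_assoc, h1, mul_neg, norm_neg]
    have hLH := hGC 3 Ω₁ (e'.target ∩ e'.symm ⁻¹' ((cov D a).U i)) (fun z => e' (D.τ (e.symm z)))
      (fun z => (hitS (cov D a) (q2F D a t) (q3F D a t)).A i (e'.symm z)) (fun z => H i (e'.symm z))
      (fun w => ‖(cov D a).η i e' (e'.symm w)‖ ^ 2) (fun z => ‖(cov D a).η i e (e.symm z)‖ ^ 2)
      (hΩo.inter hs1) hΩo' ((hD.tauh e he e' he'a).mono Set.inter_subset_right) (by
        intro z hz
        refine ⟨e'.map_source hz.2.2, ?_⟩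
        change e'.symm (e' (D.τ (e.symm z))) ∈ (cov D a).U i
        rw [hψ z hz]
        exact hmem i _ hz.1.2) (hH.1.loc i e' he'a) hW
    have hLH2 := (hGE 3 Ω₁ _ _ (fun _ => DD) _ (hΩo.inter hs1) hLH
      (fun a b => differentiableOn_const _) (fun z _ => by rw [HS_DDdet]; exact isUnit_one)).1
    have hLH3 := (hGE 3 Ω₁ _ _ (fun _ => 1) _ (hΩo.inter hs1) hLH2
      (fun a b => differentiableOn_const _) (fun z _ => by rw [det_one]; exact isUnit_one)).2.1
    refine ⟨Ω₁, hΩo.inter hs1, ⟨hz₀, hz₀.1, ?_⟩, HS_congr (hΩo.inter hs1) hLH3 ?_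
      (fun z _ => rfl) ?_⟩
    · exact mem_chart_source ℂ _
    · intro z hz
      have h1 := hA i _ hz.1.2
      simp only [hψ z hz, HS_DDinv]
      exact h1
    · intro z hz
      simp only [hψ z hz, HS_DDH]
  · intro i x hx
    have h1 := hH.2 i _ (hmem i x hx)
    rw [det_mul, det_mul, HS_DDdet, h1]
    simp

end

end Pool.Agent.DL
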