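import Pool.Agent.helper22.DL.SpecE2

/-! # dl:ESD (helper46): a priori bounds of the scalar equation -/

namespace Pool.Agent.DL

open Matrix Complex MeasureTheory Set Filter Topology
open scoped ComplexOrder Manifold ContDiff ComplexConjugate

noncomputable section

/-- extension of a solution to the plane -/
theorem ESD_ps (hS : EIS_stmt) (hE : EPE_stmt) (hD : EPD_stmt) (D : Dat) (hV : D.Valid)
    (u : Bool → ℂ → ℝ) (c : ℝ) (h : Sol3 D u zf zf c 0) :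
    ∃ U : Bool → ℂ → ℝ, (∀ j, Continuous (U j)) ∧ (∀ j z, z ≠ 0 → U j z = U (!j) z⁻¹) ∧
      (∀ j, ∀ z ∈ Dk, U j z = u j z) ∧ PS3 D (fun j => Ls (U j)) zf := by
  have h1 := hS D u zf zf c 0 hV h
  have hbet : bet u zf = zf := by
    funext j z
    simp [bet]
  have hB : (fun j z => TB (bet u zf) j z + Pq 0 j z) = zf := by
    rw [hbet]
    funext j z
    cases j <;> simp [TB, Pq]
  rw [hB] at h1
  have h2 := hE D _ _ _ hV h1
  have h3 := (hD D _ _ _ _ _ _ hV h1 h2).1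
  exact ⟨fun j z => TU (Fd D u zf zf) j z + c, h1.cu, h1.gu, fun j z hz => (h.eu j z hz).symm, h3⟩

/-- the equation in a coordinate -/
theorem ESD_eq {Ω : Set ℂ} {W : ℂ → ℝ} {p r : ℂ → ℂ} {s L : ℂ → ℝ}
    (h : SY Ω W p r s L (fun _ => 0)) (y : ℂ) (hy : y ∈ Ω) (hr : r y = 0) :
    lap L y = W y * (Real.exp (L y) * ‖p y‖ ^ 2 - Real.exp (-L y) + s y) := by
  have h1 := h.e1 y hy
  have h2 : dzb (fun _ : ℂ => (0 : ℂ)) y = 0 := by simp [dzb]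
  rw [h2, hr] at h1
  rw [h1]
  simp [RR, xx, yy]

theorem ESD_sh (κ : ℝ) (hκ : 4 ≤ κ) (σ : ℝ) (hσ : σ ∈ Icc (0 : ℝ) 1) (p : Bool → ℂ → ℂ) (j : Bool)
    (z : ℂ) (hz : z ∈ Dk) :
    σ * shf κ p j z ≤ 4 ∧ 2 * ‖1 - z ^ 8‖ / (κ * (1 + ‖z‖ ^ 2) ^ 2) ≤ 1 ∧
    -‖p j z‖ ^ 2 ≤ σ * shf κ p j z := by
  have hz1 : ‖z‖ ≤ 1 := by simpa using hz
  have hz0 := norm_nonneg z
  have hz2 : ‖z‖ ^ 2 ≤ 1 := pow_le_one₀ hz0 hz1
  have hz3 : (0 : ℝ) ≤ ‖z‖ ^ 2 := by positivity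
  obtain ⟨K, hK⟩ : ∃ K, K = (1 + ‖z‖ ^ 2) ^ 2 := ⟨_, rfl⟩
  have hK1 : 1 ≤ K := by rw [hK]; nlinarith
  have hK4 : K ≤ 4 := by rw [hK]; nlinarith
  have hN : ‖1 - z ^ 8‖ ≤ 2 := by
    refine (norm_sub_le _ _).trans ?_
    rw [norm_one, norm_pow]
    have : ‖z‖ ^ 8 ≤ 1 := pow_le_one₀ hz0 hz1
    linarith
  have hN0 := norm_nonneg (1 - z ^ 8)
  have hκK : 4 ≤ κ * K := by nlinarith
  have h1 : 2 * ‖1 - z ^ 8‖ / (κ * K) ≤ 1 := by
    rw [div_le_one (by linarith)]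
    linarith
  have h1' : 0 ≤ 2 * ‖1 - z ^ 8‖ / (κ * K) := by positivity
  have h2 : 0 ≤ ‖p j z‖ ^ 2 / K := by positivity
  have h3 : ‖p j z‖ ^ 2 / K ≤ ‖p j z‖ ^ 2 := div_le_self (by positivity) hK1
  have hP : 0 ≤ ‖p j z‖ ^ 2 := by positivity
  have hs : shf κ p j z = -(‖p j z‖ ^ 2 / K - K + 2 * ‖1 - z ^ 8‖ / (κ * K)) := by
    rw [hK]; rfl
  rw [← hK]
  refine ⟨?_, h1, ?_⟩
  · rw [hs]
    nlinarith [hσ.1, hσ.2]
  · rw [hs]
    nlinarith [hσ.1, hσ.2]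

theorem ESD_up (hX : MX_stmt) (hA : LA_stmt) (hM : EMX_stmt) (hG : EGS_stmt) (hT : EPT_stmt) (κ : ℝ)
    (hκ : 4 ≤ κ) : ∃ A : ℝ, ∀ (D : Dat) (σ : ℝ) (L : Bool → ℂ → ℝ), σ ∈ Icc (0 : ℝ) 1 → D.κ = κ →
    (∀ j z, D.r j z = 0) → (∀ j z, D.s j z = σ * shf κ D.p j z) → PS3 D L zf →
    ∀ j, ∀ z ∈ Dk, L j z ≤ A := by
  obtain ⟨-, gS1, gS2, gS3, gS4⟩ := hG
  obtain ⟨c, hc, hT⟩ := hT κ hκ
  refine ⟨max 0 (-Real.log c) + 1 / 2 * Real.log 18, ?_⟩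
  intro D σ L hσ hDκ hr hs hPS
  have hSpos : ∀ z, 0 < Sg z := fun z => lt_of_lt_of_le one_pos (gS2 z)
  obtain ⟨j, z₀, hz₀, hm1, hm2⟩ := hM (fun j z => L j z + 1 / 2 * Real.log (Sg z))
    (fun j => (hPS.cL j).add (continuous_const.mul (gS1.log fun z => (hSpos z).ne')))
    (fun j z hz => by
      have e1 := hPS.gL j z hz
      have e2 := gS4 z hz
      have hz' : ‖z‖ ≠ 0 := norm_ne_zero_iff.2 hz
      show L j z + 1 / 2 * Real.log (Sg z) = L (!j) z⁻¹ + 1 / 2 * Real.log (Sg z⁻¹)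
      rw [e1, e2, Real.log_mul (by positivity) (hSpos _).ne', Real.log_pow]
      push_cast
      ring)
  obtain ⟨ψ, om, ρ, hρ, hψ0, hψd, hom, -, hS2, hSl, hSY, -⟩ := hT z₀ hz₀
  have hSY := hSY D L zf hDκ hPS j
  have h0 : (0 : ℂ) ∈ Metric.ball (0 : ℂ) ρ := Metric.mem_ball_self hρ
  have hL2 : ContDiffAt ℝ 2 (fun y => L j (ψ y)) 0 :=
    hSY.sL.contDiffAt (Metric.isOpen_ball.mem_nhds h0)
  have heq := ESD_eq hSY 0 h0 (hr j _)
  have hmax : IsLocalMax (fun y => 1 * L j (ψ y) + 1 / 2 * Real.log (Sg (ψ y))) 0 := by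
    refine Filter.Eventually.of_forall fun y => ?_
    have := hm1 (ψ y)
    show 1 * L j (ψ y) + 1 / 2 * Real.log (Sg (ψ y)) ≤
      1 * L j (ψ 0) + 1 / 2 * Real.log (Sg (ψ 0))
    rw [hψ0, one_mul, one_mul]
    exact this
  have hlap := hX _ 0 ((contDiffAt_const.mul hL2).add (contDiffAt_const.mul hS2)) hmax
  rw [hA.1 _ _ 0 1 (1 / 2) hL2 hS2, heq] at hlap
  have ho := hom 0 h0
  obtain ⟨b1, b2, b3⟩ := ESD_sh κ hκ σ hσ D.p j z₀ hz₀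
  have hLz : L j z₀ ≤ max 0 (-Real.log c) := by
    by_cases hL : L j z₀ ≤ 0
    · exact hL.trans (le_max_left _ _)
    · push Not at hL
      refine le_trans ?_ (le_max_right _ _)
      have e1 : 1 ≤ Real.exp (L j z₀) := Real.one_le_exp hL.le
      rw [hψ0] at hlap
      have e2 : Real.exp (L j z₀) * ‖D.p j z₀‖ ^ 2 - Real.exp (-L j z₀) + D.s j z₀ ≤ -c := by
        by_contra hcon
        push Not at hcon
        have := mul_lt_mul_of_pos_left hcon ho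
        linarith
      have e3 : ‖D.p j z₀‖ ^ 2 ≤ Real.exp (L j z₀) * ‖D.p j z₀‖ ^ 2 :=
        le_mul_of_one_le_left (by positivity) e1
      rw [hs j z₀] at e2
      have e4 : c ≤ Real.exp (-L j z₀) := by linarith
      have e5 := Real.log_le_log hc e4
      rw [Real.log_exp] at e5
      linarith
  have hFmax : ∀ j' z, L j' z + 1 / 2 * Real.log (Sg z) ≤ L j z₀ + 1 / 2 * Real.log (Sg z₀) := by
    intro j' z
    by_cases hjj : j' = j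
    · rw [hjj]; exact hm1 z
    · have : j' = !j := by cases j' <;> cases j <;> simp_all
      rw [this]; exact hm2 z
  intro j' z hz
  have f1 := hFmax j' z
  have f2 : 0 ≤ Real.log (Sg z) := Real.log_nonneg (gS2 z)
  have f3 : Real.log (Sg z₀) ≤ Real.log 18 := Real.log_le_log (hSpos z₀) (gS3 z₀ hz₀)
  linarith

theorem ESD_lo (hX : MX_stmt) (hA : LA_stmt) (hM : EMX_stmt) (hT : EPT_stmt) (hQ : ELQ_stmt) (κ : ℝ)
    (hκ : 4 ≤ κ) (D : Dat) (σ : ℝ) (U : Bool → ℂ → ℝ) (Mp : ℝ) (hσ : σ ∈ Icc (0 : ℝ) 1)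
    (hDκ : D.κ = κ) (hr : ∀ j z, D.r j z = 0) (hs : ∀ j z, D.s j z = σ * shf κ D.p j z)
    (hp : ∀ j, ∀ z ∈ Dk, ‖D.p j z‖ ≤ Mp)
    (cU : ∀ j, Continuous (U j)) (gU : ∀ j z, z ≠ 0 → U j z = U (!j) z⁻¹)
    (hPS : PS3 D (fun j => Ls (U j)) zf) : ∀ j z, -Real.log (Mp ^ 2 + 5) ≤ U j z := by
  obtain ⟨c, hc, hT⟩ := hT κ hκ
  obtain ⟨j, z₀, hz₀, hm1, hm2⟩ := hM (fun j z => -U j z) (fun j => (cU j).neg)
    (fun j z hz => by
      show -U j z = -U (!j) z⁻¹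
      rw [gU j z hz])
  obtain ⟨ψ, om, ρ, hρ, hψ0, hψd, hom, hκψ, -, -, hSY, -⟩ := hT z₀ hz₀
  have hSY := hSY D _ zf hDκ hPS j
  have h0 : (0 : ℂ) ∈ Metric.ball (0 : ℂ) ρ := Metric.mem_ball_self hρ
  have hL2 : ContDiffAt ℝ 2 (fun y => Ls (U j) (ψ y)) 0 :=
    hSY.sL.contDiffAt (Metric.isOpen_ball.mem_nhds h0)
  have heq := ESD_eq hSY 0 h0 (hr j _)
  obtain ⟨hQ1, hQ2⟩ := hQ ψ ρ hρ hψd
  have hmax : IsLocalMax (fun y => (-1) * Ls (U j) (ψ y) + (-2) * Real.log (1 + ‖ψ y‖ ^ 2)) 0 := by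
    refine Filter.Eventually.of_forall fun y => ?_
    have := hm1 (ψ y)
    show (-1) * Ls (U j) (ψ y) + (-2) * Real.log (1 + ‖ψ y‖ ^ 2) ≤
      (-1) * Ls (U j) (ψ 0) + (-2) * Real.log (1 + ‖ψ 0‖ ^ 2)
    unfold Ls
    rw [hψ0]
    linarith
  have hlap := hX _ 0 ((contDiffAt_const.mul hL2).add (contDiffAt_const.mul hQ1)) hmax
  rw [hA.1 _ _ 0 (-1) (-2) hL2 hQ1, heq, hQ2] at hlap
  have ho := hom 0 h0
  rw [hψ0] at hlap
  obtain ⟨b1, b2, b3⟩ := ESD_sh κ hκ σ hσ D.p j z₀ hz₀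
  have hlog : 0 ≤ Real.log (1 + ‖z₀‖ ^ 2) := Real.log_nonneg (by nlinarith [norm_nonneg z₀])
  have hUL : Ls (U j) z₀ ≤ U j z₀ := by unfold Ls; linarith
  have hMp : 0 ≤ Mp ^ 2 := sq_nonneg _
  have hlogM : 0 ≤ Real.log (Mp ^ 2 + 5) := Real.log_nonneg (by linarith)
  have hU0 : -Real.log (Mp ^ 2 + 5) ≤ U j z₀ := by
    by_cases hL : Ls (U j) z₀ ≤ 0
    · refine le_trans ?_ hUL
      have e1 : Real.exp (Ls (U j) z₀) ≤ 1 := by
        rw [← Real.exp_zero]; exact Real.exp_le_exp.2 hL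
      have hκ0 : 0 < κ := by linarith
      have e0 : ‖deriv ψ 0‖ ^ 2 / (1 + ‖z₀‖ ^ 2) ^ 2 =
          om 0 * (‖1 - z₀ ^ 8‖ / (κ * (1 + ‖z₀‖ ^ 2) ^ 2)) := by
        have hK : 0 < (1 + ‖z₀‖ ^ 2) ^ 2 := by positivity
        field_simp
        linarith
      rw [e0] at hlap
      have e2 : -(2 * ‖1 - z₀ ^ 8‖ / (κ * (1 + ‖z₀‖ ^ 2) ^ 2)) ≤
          Real.exp (Ls (U j) z₀) * ‖D.p j z₀‖ ^ 2 - Real.exp (-Ls (U j) z₀) + D.s j z₀ := by
        by_contra hcon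
        push Not at hcon
        have := mul_lt_mul_of_pos_left hcon ho
        have e3 : om 0 * -(2 * ‖1 - z₀ ^ 8‖ / (κ * (1 + ‖z₀‖ ^ 2) ^ 2)) =
            -2 * (om 0 * (‖1 - z₀ ^ 8‖ / (κ * (1 + ‖z₀‖ ^ 2) ^ 2))) := by ring
        rw [e3] at this
        linarith
      have e4 : Real.exp (Ls (U j) z₀) * ‖D.p j z₀‖ ^ 2 ≤ ‖D.p j z₀‖ ^ 2 :=
        mul_le_of_le_one_left (by positivity) e1
      have e5 : ‖D.p j z₀‖ ^ 2 ≤ Mp ^ 2 := by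
        have := hp j z₀ hz₀
        have h9 := norm_nonneg (D.p j z₀)
        nlinarith
      rw [hs j z₀] at e2
      have e6 : Real.exp (-Ls (U j) z₀) ≤ Mp ^ 2 + 5 := by linarith
      have e7 := Real.log_le_log (Real.exp_pos _) e6
      rw [Real.log_exp] at e7
      linarith
    · push Not at hL
      linarith
  intro j' z
  have hmin : U j z₀ ≤ U j' z := by
    by_cases hjj : j' = j
    · rw [hjj]; have := hm1 z; linarith
    · have h5 : j' = !j := by cases j' <;> cases j <;> simp_all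
      rw [h5]; have := hm2 z; linarith
  linarith

theorem ESD_bd {E : Type} [SeminormedAddCommGroup E] (f : Bool → ℂ → E) (h : ∀ j, Continuous (f j)) :
    ∃ M : ℝ, ∀ j, ∀ z ∈ Dk, ‖f j z‖ ≤ M := by
  have hc : IsCompact Dk := isCompact_closedBall 0 1
  obtain ⟨M1, h1⟩ := hc.exists_bound_of_continuousOn (h false).continuousOn
  obtain ⟨M2, h2⟩ := hc.exists_bound_of_continuousOn (h true).continuousOn
  refine ⟨max M1 M2, ?_⟩
  rintro (_ | _) z hz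
  · exact (h1 z hz).trans (le_max_left _ _)
  · exact (h2 z hz).trans (le_max_right _ _)

theorem ESD (hX : MX_stmt) (hA : LA_stmt) (hM : EMX_stmt) (hG : EGS_stmt) (hT : EPT_stmt)
    (hQ : ELQ_stmt) (hS : EIS_stmt) (hE : EPE_stmt) (hD : EPD_stmt) (hC : EAC_stmt) (hSC : ESC_stmt)
    (hSV : ESV_stmt) : ESD_stmt := by
  intro D hV hr
  obtain ⟨A, hup⟩ := ESD_up hX hA hM hG hT D.κ hV.hκ
  have hV' : D.sh.Valid := (hSV D hV).1
  obtain ⟨Mp, hMp⟩ := ESD_bd D.p (fun j => (hV.hp j).continuous)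
  obtain ⟨Mr, hMr⟩ := ESD_bd D.sh.s hV'.cs
  obtain ⟨M1, hM1⟩ : ∃ M1, M1 = max (max (A + 2 * Real.log 2) (Real.log (Mp ^ 2 + 5)))
    (max Mp (max Mr 0)) := ⟨_, rfl⟩
  obtain ⟨C, hC⟩ := hC D.κ M1 hV.hκ
  refine ⟨max M1 C, ?_⟩
  intro σ hσ u c hsol
  have hVσ : (D.sh.so σ).Valid := (hSC D.sh hV' σ).2
  obtain ⟨U, cU, gU, eU, hPS⟩ := ESD_ps hS hE hD (D.sh.so σ) hVσ u c hsol
  have hs : ∀ j z, (D.sh.so σ).s j z = σ * shf D.κ (D.sh.so σ).p j z := fun j z => rfl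
  have hr' : ∀ j z, (D.sh.so σ).r j z = 0 := hr
  have h1 := hup (D.sh.so σ) σ _ hσ rfl hr' hs hPS
  have h2 := ESD_lo hX hA hM hT hQ D.κ hV.hκ (D.sh.so σ) σ U Mp hσ rfl hr' hs hMp cU gU hPS
  have hu : ∀ j, ∀ z ∈ Dk, |u j z| ≤ M1 := by
    intro j z hz
    rw [← eU j z hz, abs_le]
    have hz1 : ‖z‖ ≤ 1 := by simpa using hz
    have hz2 : ‖z‖ ^ 2 ≤ 1 := pow_le_one₀ (norm_nonneg z) hz1
    have h3 : Real.log (1 + ‖z‖ ^ 2) ≤ Real.log 2 :=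
      Real.log_le_log (by positivity) (by linarith)
    have h4 : U j z - 2 * Real.log (1 + ‖z‖ ^ 2) ≤ A := h1 j z hz
    have h5 : A + 2 * Real.log 2 ≤ M1 := by
      rw [hM1]; exact (le_max_left _ _).trans (le_max_left _ _)
    have h6 : Real.log (Mp ^ 2 + 5) ≤ M1 := by
      rw [hM1]; exact (le_max_right _ _).trans (le_max_left _ _)
    have h7 := h2 j z
    constructor <;> linarith
  have hM10 : 0 ≤ M1 := by
    rw [hM1]
    exact (le_max_right _ _).trans ((le_max_right _ _).trans (le_max_right _ _))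
  have hMp' : Mp ≤ M1 := by
    rw [hM1]; exact (le_max_left _ _).trans (le_max_right _ _)
  have hMr' : Mr ≤ M1 := by
    rw [hM1]
    exact (le_max_left _ _).trans ((le_max_right _ _).trans (le_max_right _ _))
  refine ⟨fun j z hz => (hu j z hz).trans (le_max_left _ _), ?_⟩
  refine ((hC (D.sh.so σ) u zf zf c 0 hVσ rfl ?_ hsol ?_).1).trans (le_max_right _ _)
  · intro j z hz
    refine ⟨(hMp j z hz).trans hMp', ?_, ?_⟩
    · rw [hr' j z, norm_zero]; exact hM10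
    · have h8 := (hMr j z hz).trans hMr'
      rw [Real.norm_eq_abs] at h8
      show |σ * D.sh.s j z| ≤ M1
      rw [abs_mul, abs_of_nonneg hσ.1]
      exact (mul_le_of_le_one_left (abs_nonneg _) hσ.2).trans h8
  · intro j z hz
    exact ⟨hu j z hz, by rw [norm_zero]; exact hM10⟩

end

end Pool.Agent.DL
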