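import Pool.Agent.helper67.DL.SpecL

/-! # Project dl, module FR: choice of the parameters -/

namespace Pool.Agent.DL

open Matrix Complex
open scoped ComplexOrder

theorem FR : FR_stmt := by
  set x : ℝ := 300000 with hx
  have hex : 2 ≤ Real.exp x := by
    have h := Real.add_one_le_exp x
    rw [hx] at h ⊢
    linarith
  set R : ℝ := Real.sqrt (Real.exp x - 1) with hRdef
  have hR2 : 1 + R ^ 2 = Real.exp x := by
    rw [hRdef, Real.sq_sqrt (by linarith)]
    ring
  have hR1 : 1 ≤ R := by
    rw [hRdef]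
    exact Real.one_le_sqrt.2 (by linarith)
  have hlog0 : 0 ≤ Real.log 53 := Real.log_nonneg (by norm_num)
  have hlog1 : Real.log 53 ≤ 52 := by
    have := Real.log_le_sub_one_of_pos (x := 53) (by norm_num)
    linarith
  have hUc : Uc R = 2 * (Real.log 53 + x) := by
    unfold Uc
    rw [hR2, Real.log_mul (by norm_num) (Real.exp_pos x).ne', Real.log_exp]
  have hUpos : 1 ≤ Uc R := by rw [hUc, hx]; linarith
  set s : ℝ := Real.sqrt (60 * (2 + Uc R)) with hs
  have hs0 : 0 < s := Real.sqrt_pos.2 (by linarith)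
  have hmu : muc R = 1 / s := rfl
  have hsx : s * 41 ≤ x := by
    have h1 : s ≤ x / 41 := by
      rw [hs]
      refine Real.sqrt_le_iff.2 ⟨by rw [hx]; norm_num, ?_⟩
      rw [hUc, hx]
      nlinarith
    linarith
  have hl2 : 0 ≤ Real.log (2 * Uc R) := Real.log_nonneg (by linarith)
  set t : ℝ := 1 + s + Real.log (2 * Uc R) with htdef
  have ht1 : 1 ≤ t := by linarith
  have htpos : 0 < t := by linarith
  refine ⟨R, t, hR1, ht1, ?_, ?_⟩
  · rw [hmu, one_div, inv_mul_eq_div, le_div_iff₀ hs0]
    linarith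
  · rw [hR2, Real.rpow_def_of_pos (Real.exp_pos x), Real.log_exp, hmu]
    have h1 : x * -(1 / s * t) ≤ -(40 * t) + -t := by
      have h2 : 41 ≤ x / s := by rw [le_div_iff₀ hs0]; linarith
      have h3 : x * -(1 / s * t) = -(x / s * t) := by ring
      rw [h3]
      nlinarith
    have h4 : Real.exp (x * -(1 / s * t)) ≤ Real.exp (-(40 * t)) * Real.exp (-t) := by
      rw [← Real.exp_add]
      exact Real.exp_le_exp.2 h1
    have h5 : Real.exp (-t) < 1 / (2 * Uc R) := by
      have h6 : Real.exp (-t) < Real.exp (-Real.log (2 * Uc R)) :=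
        Real.exp_lt_exp.2 (by linarith)
      rw [Real.exp_neg, Real.exp_neg, Real.exp_log (by linarith)] at h6
      rw [Real.exp_neg, one_div]
      exact h6
    have hU0 : 0 < Uc R := by linarith
    calc Uc R * Real.exp (x * -(1 / s * t))
        ≤ Uc R * (Real.exp (-(40 * t)) * Real.exp (-t)) := mul_le_mul_of_nonneg_left h4 hU0.le
      _ < Uc R * (Real.exp (-(40 * t)) * (1 / (2 * Uc R))) :=
          mul_lt_mul_of_pos_left (mul_lt_mul_of_pos_left h5 (Real.exp_pos _)) hU0
      _ = Real.exp (-(40 * t)) / 2 := by field_simp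

end Pool.Agent.DL
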