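import Pool.Agent.helper67.DL.SpecG
import Pool.Agent.helper89.DL.WI

namespace Pool.Agent.DL

open Matrix Complex
open scoped ComplexOrder Topology

noncomputable section

lemma GC_chain {f ψ : ℂ → ℂ} {z : ℂ} (hf : DifferentiableAt ℝ f (ψ z))
    (hψ : DifferentiableAt ℂ ψ z) :
    WIdd (-1) (fun w => f (ψ w)) z = deriv ψ z * WIdd (-1) f (ψ z) ∧
    WIdd 1 (fun w => f (ψ w)) z = star (deriv ψ z) * WIdd 1 f (ψ z) := by
  have h1 : HasFDerivAt (fun w => f (ψ w)) ((fderiv ℝ f (ψ z)).comp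
      ((fderiv ℂ ψ z).restrictScalars ℝ)) z :=
    hf.hasFDerivAt.comp z (hψ.hasFDerivAt.restrictScalars ℝ)
  have h2 : ∀ v : ℂ, fderiv ℂ ψ z v = deriv ψ z * v := by
    intro v
    have := (fderiv ℂ ψ z).map_smul v 1
    rw [smul_eq_mul, mul_one] at this
    rw [this, smul_eq_mul, fderiv_apply_one_eq_deriv, mul_comm]
  have h3 : ∀ v : ℂ, fderiv ℝ (fun w => f (ψ w)) z v =
      (v.re : ℂ) * 0 + (deriv ψ z * v).re * fderiv ℝ f (ψ z) 1 +
        (deriv ψ z * v).im * fderiv ℝ f (ψ z) I := by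
    intro v
    rw [h1.fderiv]
    simp only [ContinuousLinearMap.comp_apply, ContinuousLinearMap.coe_restrictScalars', h2]
    have h4 : (deriv ψ z * v : ℂ) = (deriv ψ z * v).re • (1 : ℂ) + (deriv ψ z * v).im • I := by
      rw [real_smul, real_smul, mul_one, re_add_im]
    conv_lhs => rw [h4]
    rw [map_add, map_smul, map_smul, real_smul, real_smul]
    ring
  have hs : star (deriv ψ z) = ((deriv ψ z).re : ℂ) - (deriv ψ z).im * I := by
    apply Complex.ext <;> simp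
  have hc : deriv ψ z = ((deriv ψ z).re : ℂ) + (deriv ψ z).im * I := (re_add_im _).symm
  constructor
  · simp only [WIdd, h3]
    conv_rhs => rw [hc]
    simp only [mul_one, mul_re, mul_im, I_re, I_im, mul_zero, zero_mul, zero_sub, add_zero,
      zero_add, sub_zero, ofReal_neg]
    linear_combination ((deriv ψ z).im * fderiv ℝ f (ψ z) I / 2) * (I_mul_I)
  · simp only [WIdd, h3, hs]
    simp only [mul_one, mul_re, mul_im, I_re, I_im, mul_zero, zero_mul, zero_sub, add_zero,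
      zero_add, sub_zero, ofReal_neg]
    linear_combination ((deriv ψ z).im * fderiv ℝ f (ψ z) I / 2) * (I_mul_I)

theorem GC : GC_stmt := by
  intro n Ω Ω' ψ A H W W' hΩ hΩ' hψ hmap hH hW
  have hH2 : WIC 2 Ω' H := hH.smooth
  have hH1 : WIC 1 Ω' H := fun a b => (hH2 a b).of_le (by norm_num)
  have hdet : ∀ z ∈ Ω', (H z).det ≠ 0 := fun z hz => (WI_unit (hH.pos z hz)).ne_zero
  have hθ : WIC 1 Ω' (fun w => (H w)⁻¹ * mdz H w) := by
    have e : (fun w => (H w)⁻¹ * mdz H w) = fun w => (H w)⁻¹ * WImd (-1) H w := by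
      funext w
      rw [WI_mdz]
    rw [e]
    exact WIC_mul (WIC_inv hH1 hdet) (WIC_md (-1) hΩ' hH2)
  have hψR : ContDiffOn ℝ 2 ψ Ω := by
    have h : ContDiffOn ℂ ((2 : ℕ) : ℕ∞) ψ Ω := hψ.contDiffOn hΩ
    exact_mod_cast h.restrict_scalars ℝ
  refine ⟨fun z hz => hH.pos _ (hmap hz), fun a b => (hH.smooth a b).comp hψR hmap, ?_⟩
  intro z hz
  have hψz : DifferentiableAt ℂ ψ z := hψ.differentiableAt (hΩ.mem_nhds hz)
  have hev : (fun w => (H (ψ w))⁻¹ * mdz (fun v => H (ψ v)) w) =ᶠ[𝓝 z]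
      fun w => deriv ψ w • ((H (ψ w))⁻¹ * mdz H (ψ w)) := by
    filter_upwards [hΩ.mem_nhds hz] with w hw
    have h1 : mdz (fun v => H (ψ v)) w = deriv ψ w • mdz H (ψ w) := by
      ext a b
      have := (GC_chain (WIC_at hΩ' two_ne_zero hH2 (hmap hw) a b)
        (hψ.differentiableAt (hΩ.mem_nhds hw))).1
      simp only [mdz, Matrix.of_apply, Matrix.smul_apply, WI_dz, smul_eq_mul]
      exact this
    rw [h1, Matrix.mul_smul]
  have key : mdzb (fun w => (H (ψ w))⁻¹ * mdz (fun v => H (ψ v)) w) z =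
      ((‖deriv ψ z‖ ^ 2 : ℝ) : ℂ) • mdzb (fun w => (H w)⁻¹ * mdz H w) (ψ z) := by
    rw [WI_mdzb, WI_mdzb, WImd_congr hev]
    ext a b
    simp only [WImd, Matrix.of_apply, Matrix.smul_apply, smul_eq_mul]
    have hd : DifferentiableAt ℝ (fun w => ((H w)⁻¹ * mdz H w) a b) (ψ z) :=
      WIC_at hΩ' one_ne_zero hθ (hmap hz) a b
    have hd2 : DifferentiableAt ℝ (fun w => ((H (ψ w))⁻¹ * mdz H (ψ w)) a b) z :=
      hd.comp z (hψz.restrictScalars ℝ)
    have hd3 : DifferentiableAt ℂ (deriv ψ) z := (hψ.deriv hΩ).differentiableAt (hΩ.mem_nhds hz)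
    rw [WIdd_mul (f := deriv ψ) (g := fun w => ((H (ψ w))⁻¹ * mdz H (ψ w)) a b)
      (hd3.restrictScalars ℝ) hd2, WIdd_holo 1 hd3]
    have h5 := (GC_chain hd hψz).2
    rw [h5]
    have h6 : ((‖deriv ψ z‖ ^ 2 : ℝ) : ℂ) = deriv ψ z * star (deriv ψ z) := by
      rw [ofReal_pow]
      exact (Complex.mul_conj' _).symm
    rw [h6]
    ring
  rw [key, hH.eq _ (hmap hz), hW z hz, smul_smul]
  congr 1
  push_cast
  ring

end

end Pool.Agent.DL
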