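import Pool.Agent.helper67.DL.SpecL

/-! # Project dl, module LOC: the local theorem -/

namespace Pool.Agent.DL

open Matrix Complex
open scoped ComplexOrder

theorem LOC_cosh (v : ℝ) (hv : 0 ≤ v) : 2 + v ^ 2 ≤ Real.exp (-v) + Real.exp v := by
  have h1 : v / 2 ≤ Real.sinh (v / 2) := Real.self_le_sinh_iff.2 (by linarith)
  have h2 : Real.cosh v = 1 + 2 * Real.sinh (v / 2) ^ 2 := by
    have h3 := Real.cosh_two_mul (v / 2)
    have h4 := Real.cosh_sq (v / 2)
    rw [show 2 * (v / 2) = v by ring] at h3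
    rw [h3, h4]
    ring
  have h5 := Real.cosh_eq v
  have h6 : Real.exp (-v) + Real.exp v = 2 * Real.cosh v := by rw [h5]; ring
  rw [h6, h2]
  have h7 : (v / 2) ^ 2 ≤ Real.sinh (v / 2) ^ 2 := pow_le_pow_left₀ (by linarith) h1 2
  nlinarith

theorem LOC (hFR : FR_stmt) (hFU : FU_stmt) (hFC : FC_stmt) (hVA : VA_stmt) (hVB : VB_stmt) :
    LOC_stmt := by
  obtain ⟨R, t, hR, ht, hmu, hlt⟩ := hFR
  refine ⟨R, t, hR, ht, fun W H h L hW hH hh hH0 hS => ?_⟩
  have ht0 : 0 < t := by linarith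
  -- the scalar part
  have hv : Real.exp (-(20 * t)) ≤ -Real.log ‖qq t 0‖ - 2 * L 0 :=
    hVB t W L hS fun z hz => hVA t W L hS z hz
  have hq : ‖qq t 0‖ = t ^ 2 := by
    unfold qq
    have : ((t : ℂ) ^ 2 * (1 - 0 ^ 2)) = ((t ^ 2 : ℝ) : ℂ) := by push_cast; ring
    rw [this, Complex.norm_real, Real.norm_of_nonneg (by positivity)]
  rw [hq] at hv ⊢
  set v : ℝ := -Real.log (t ^ 2) - 2 * L 0 with hvdef
  have hv0 : 0 ≤ v := (Real.exp_pos _).le.trans hv
  have e1 : Real.exp (2 * L 0) = Real.exp (-v) / t ^ 2 := by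
    rw [show 2 * L 0 = -v - Real.log (t ^ 2) by rw [hvdef]; ring, Real.exp_sub,
      Real.exp_log (by positivity)]
  have e2 : Real.exp (-(2 * L 0)) = Real.exp v * t ^ 2 := by
    rw [show -(2 * L 0) = v + Real.log (t ^ 2) by rw [hvdef]; ring, Real.exp_add,
      Real.exp_log (by positivity)]
  have hRHS : (t ^ 2) ^ 2 * Real.exp (2 * L 0) + Real.exp (-(2 * L 0)) =
      t ^ 2 * (Real.exp (-v) + Real.exp v) := by
    rw [e1, e2]
    field_simp
  rw [hRHS]
  have hsq : Real.exp (-(40 * t)) ≤ v ^ 2 := by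
    have : Real.exp (-(40 * t)) = Real.exp (-(20 * t)) ^ 2 := by
      rw [← Real.exp_nat_mul]
      congr 1
      push_cast
      ring
    rw [this]
    exact pow_le_pow_left₀ (Real.exp_pos _).le hv 2
  have hcosh := LOC_cosh v hv0
  have hge : t ^ 2 * (2 + Real.exp (-(40 * t))) ≤ t ^ 2 * (Real.exp (-v) + Real.exp v) :=
    mul_le_mul_of_nonneg_left (by linarith) (by positivity)
  refine lt_of_lt_of_le ?_ hge
  -- the matrix part
  have hpos : 0 < t ^ 2 * (2 + Real.exp (-(40 * t))) := by positivity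
  obtain ⟨hu0, hu1⟩ := hFU t R W H ht hR hmu hW hH
  have hfc := hFC t h ht hh
  rw [← hH0] at hfc
  rw [hfc]
  by_cases hn : nn (H 0) (PP t 0) ≤ 0
  · rw [Real.sqrt_eq_zero_of_nonpos hn, mul_zero]
    exact hpos
  · push Not at hn
    set u : ℝ := Real.log (nn (H 0) (PP t 0)) with hu
    have hs : Real.sqrt (nn (H 0) (PP t 0)) = Real.exp (u / 2) := by
      rw [Real.sqrt_eq_iff_mul_self_eq_of_pos (Real.exp_pos _), ← Real.exp_add, add_halves, hu,
        Real.exp_log hn]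
    have hult : u < Real.exp (-(40 * t)) / 2 := lt_of_le_of_lt hu1 hlt
    have hexp1 : Real.exp (-(40 * t)) ≤ 1 := Real.exp_le_one_iff.2 (by linarith)
    have hb : Real.exp (u / 2) ≤ 1 + u := by
      have h1 := Real.abs_exp_sub_one_sub_id_le (x := u / 2) (by rw [abs_of_nonneg] <;> linarith)
      have h2 := (abs_le.1 h1).2
      nlinarith
    rw [hs]
    have ht2 : 0 < t ^ 2 := by positivity
    nlinarith [mul_lt_mul_of_pos_left hult ht2, mul_le_mul_of_nonneg_left hb ht2.le]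

end Pool.Agent.DL
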